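import Mathlib

set_option autoImplicit false

namespace Pool.Agent.Results.MP_57045c_lc.Harmless

/-- Approval ballots: issue `i` has candidates `Fin (m i + 1)`, listed in tie-breaking order. -/
abbrev Ballots (n : ℕ) {k : ℕ} (m : Fin k → ℕ) := (i : Fin k) → Fin n → Finset (Fin (m i + 1))

abbrev Outcome {k : ℕ} (m : Fin k → ℕ) := (i : Fin k) → Fin (m i + 1)

section
variable {n k : ℕ} {m : Fin k → ℕ}

/-- Satisfaction of `v` counted over the first `t` issues. -/
def psat (A : Ballots n m) (w : Outcome m) (t : ℕ) (v : Fin n) : ℕ :=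
  (Finset.univ.filter fun j : Fin k => j.val < t ∧ w j ∈ A j v).card

/-- The weights applied to the increasingly sorted vector `s`. -/
noncomputable def score (α : Fin n → ℝ) (s : Fin n → ℕ) : ℝ :=
  ∑ j, α j * (s (Tuple.sort s j) : ℝ)

noncomputable def val (α : Fin n → ℝ) (A : Ballots n m) (w : Outcome m) (i : Fin k)
    (c : Fin (m i + 1)) : ℝ :=
  score α fun v => psat A w i.val v + if c ∈ A i v then 1 else 0

/-- `w` is the outcome of the sequential OWA rule. -/
def IsOut (α : Fin n → ℝ) (A : Ballots n m) (w : Outcome m) : Prop :=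
  ∀ i c, val α A w i c ≤ val α A w i (w i) ∧ (val α A w i c = val α A w i (w i) → w i ≤ c)

end

def NeverHarmful (α : (n : ℕ) → Fin n → ℝ) : Prop :=
  ∀ (n k : ℕ) (m : Fin k → ℕ) (A A' : Ballots n m) (w w' : Outcome m) (v : Fin n) (i : Fin k),
    IsOut (α n) A w → IsOut (α n) A' w' → (∀ j u, j ≠ i ∨ u ≠ v → A' j u = A j u) →
    w i ∈ A i v → w i ∉ A' i v → w' i = w i → psat A w k v ≤ psat A w' k v

section
variable {n k : ℕ} {m : Fin k → ℕ}

lemma psat_succ (A : Ballots n m) (w : Outcome m) (j : Fin k) (v : Fin n) :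
    psat A w (j.val + 1) v = psat A w j.val v + if w j ∈ A j v then 1 else 0 := by
  simp only [psat, Finset.card_filter]
  have : (if w j ∈ A j v then 1 else 0) = ∑ l : Fin k, if l = j ∧ w l ∈ A l v then 1 else 0 := by
    rw [Finset.sum_eq_single j (fun l _ h => by simp [h]) (by simp)]
    simp
  rw [this, ← Finset.sum_add_distrib]
  refine Finset.sum_congr rfl fun l _ => ?_
  by_cases h1 : w l ∈ A l v
  · simp only [h1, and_true, Fin.ext_iff]
    split_ifs <;> omega
  · simp [h1]

lemma pick_eq {α : Fin n → ℝ} {A A' : Ballots n m} {w w' : Outcome m} (h : IsOut α A w)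
    (h' : IsOut α A' w') (j : Fin k) (d : ℝ) (e : ∀ c, val α A' w' j c = val α A w j c + d) :
    w' j = w j := by
  have a := h j (w' j)
  have b := h' j (w j)
  rw [e, e] at b
  exact le_antisymm (b.2 (by linarith [a.1, b.1])) (a.2 (by linarith [a.1, b.1]))

lemma score_one (s : Fin n → ℕ) : score (fun _ => 1) s = ∑ j, (s j : ℝ) := by
  simp only [score, one_mul]
  exact Equiv.sum_comp (Tuple.sort s) fun j => (s j : ℝ)

lemma score_two (s : Fin 2 → ℕ) : score (fun j => if j.val = 0 then 2 else 1) s =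
    ((s 0 + s 1 + min (s 0) (s 1) : ℕ) : ℝ) := by
  have h1 : s (Tuple.sort s 0) ≤ s (Tuple.sort s 1) := Tuple.monotone_sort s (by decide)
  have h2 : Tuple.sort s 0 ≠ Tuple.sort s 1 := (Tuple.sort s).injective.ne (by decide)
  simp only [score, Fin.sum_univ_two]
  generalize Tuple.sort s 0 = a at *
  generalize Tuple.sort s 1 = b at *
  fin_cases a <;> fin_cases b <;> simp at h1 h2 ⊢
  · rw [min_eq_left (by exact_mod_cast h1)]
    ring
  · rw [min_eq_right (by exact_mod_cast h1)]
    ring

end

theorem result : ∃ α : (n : ℕ) → Fin n → ℝ, (∀ n j, 0 < α n j) ∧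
    (∃ n j j', α n j ≠ α n j') ∧ NeverHarmful α := by
  refine ⟨fun n j => if n = 2 ∧ j.val = 0 then 2 else 1, fun n j => by dsimp only; split_ifs <;> norm_num,
    ⟨2, 0, 1, by norm_num⟩, ?_⟩
  intro n k m A A' w w' v i h h' hA h1 h2 h3
  by_cases hn : n = 2
  swap
  · simp only [hn, false_and, if_false] at h h'
    have : w' = w := by
      funext j
      by_cases hj : j = i
      · subst hj
        exact h3
      · refine pick_eq h h' j (∑ u, (psat A' w' j u : ℝ) - ∑ u, (psat A w j u : ℝ)) fun c => ?_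
        simp only [val, score_one, hA j _ (Or.inl hj)]
        push_cast
        simp only [Finset.sum_add_distrib]
        ring
    rw [this]
  subst hn
  simp only [true_and] at h h'
  have pre : ∀ t, t ≤ i.val → ∀ u, psat A' w' t u = psat A w t u ∧ psat A w' t u = psat A w t u := by
    intro t
    induction t with
    | zero => intro _ u; simp [psat]
    | succ t ih =>
      intro ht u
      have ht' : t < k := by omega
      have hj : (⟨t, ht'⟩ : Fin k) ≠ i := fun e => by rw [← e] at ht; simp at ht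
      have e : w' ⟨t, ht'⟩ = w ⟨t, ht'⟩ := pick_eq h h' _ 0 fun c => by
        simp only [val, add_zero, hA _ _ (Or.inl hj), fun u => (ih (by omega) u).1]
      have a := psat_succ A' w' ⟨t, ht'⟩ u
      have b := psat_succ A w ⟨t, ht'⟩ u
      have c := psat_succ A w' ⟨t, ht'⟩ u
      rw [hA _ _ (Or.inl hj), e] at a
      rw [e] at c
      have := ih (by omega) u
      simp only at a b c
      omega
  obtain ⟨u, hu, hs⟩ : ∃ u : Fin 2, u ≠ v ∧ ∀ s : Fin 2 → ℕ,
      score (fun j => if j.val = 0 then 2 else 1) s = ((s v + s u + min (s v) (s u) : ℕ) : ℝ) := by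
    simp only [score_two, Nat.cast_inj]
    fin_cases v
    · exact ⟨1, by simp, fun s => rfl⟩
    · exact ⟨0, by simp, fun s => by simp; omega⟩
  have post : ∀ t, i.val < t → t ≤ k → psat A w' t v = psat A' w' t v + 1 ∧
      psat A' w' t v + 1 + psat A' w' t u = psat A w t v + psat A w t u ∧
      psat A w t v ≤ psat A' w' t v + 1 := by
    intro t ht
    induction t, ht using Nat.le_induction with
    | base =>
      intro _
      have a := psat_succ A' w' i
      have b := psat_succ A w i
      have c := psat_succ A w' i v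
      have a1 := a v
      have a2 := a u
      have b1 := b v
      have b2 := b u
      rw [hA _ _ (Or.inr hu), h3] at a2
      rw [h3, if_neg h2] at a1
      rw [h3, if_pos h1] at c
      rw [if_pos h1] at b1
      have p1 := pre i le_rfl v
      have p2 := pre i le_rfl u
      simp only [Nat.succ_eq_add_one]
      omega
    | succ t ht ih =>
      intro hk
      have ht' : t < k := by omega
      have hj : (⟨t, ht'⟩ : Fin k) ≠ i := fun e => by rw [← e] at ht; simp at ht
      have a1 := psat_succ A' w' ⟨t, ht'⟩ v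
      have a2 := psat_succ A' w' ⟨t, ht'⟩ u
      have b1 := psat_succ A w ⟨t, ht'⟩ v
      have b2 := psat_succ A w ⟨t, ht'⟩ u
      have c := psat_succ A w' ⟨t, ht'⟩ v
      have o1 := (h ⟨t, ht'⟩ (w' ⟨t, ht'⟩)).1
      have o2 := (h' ⟨t, ht'⟩ (w ⟨t, ht'⟩)).1
      simp only [val, Nat.cast_le, hs, hA _ _ (Or.inl hj)] at o1 o2
      rw [hA _ _ (Or.inl hj)] at a1 a2
      have := ih (by omega)
      simp only at a1 a2 b1 b2 c
      generalize hx : (if w ⟨t, ht'⟩ ∈ A ⟨t, ht'⟩ v then 1 else 0) = x at *
      generalize hy : (if w ⟨t, ht'⟩ ∈ A ⟨t, ht'⟩ u then 1 else 0) = y at *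
      generalize hx' : (if w' ⟨t, ht'⟩ ∈ A ⟨t, ht'⟩ v then 1 else 0) = x' at *
      generalize hy' : (if w' ⟨t, ht'⟩ ∈ A ⟨t, ht'⟩ u then 1 else 0) = y' at *
      have : x ≤ 1 := by rw [← hx]; split_ifs <;> omega
      have : y ≤ 1 := by rw [← hy]; split_ifs <;> omega
      have : x' ≤ 1 := by rw [← hx']; split_ifs <;> omega
      have : y' ≤ 1 := by rw [← hy']; split_ifs <;> omega
      omega
  have := post k i.2 le_rfl
  omega

end Pool.Agent.Results.MP_57045c_lc.Harmless
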